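import Pool.Agent.H.MP_e5a0e3_pr.B

set_option autoImplicit false

namespace Pool.Agent.Results.MP_e5a0e3_pr.No

open MeasureTheory ProbabilityTheory

/-- nearest neighbours in the hypercubic lattice -/
def Adj {d : ℕ} (x y : Fin d → ℤ) : Prop := ∑ i, |y i - x i| = 1

/-- every vertex independently picks a uniform `k`-subset of its neighbours -/
noncomputable def law (d k : ℕ) : Measure ((Fin d → ℤ) → Finset (Fin d → ℤ)) :=
  Measure.infinitePi fun x => uniformOn {s | s.card = k ∧ ∀ y ∈ s, Adj x y}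

/-- an infinite self-avoiding path of open edges starts at the origin -/
def Perc (d : ℕ) : Set ((Fin d → ℤ) → Finset (Fin d → ℤ)) :=
  {N | ∃ x : ℕ → Fin d → ℤ, x 0 = 0 ∧ Function.Injective x ∧
    ∀ t, Adj (x t) (x (t + 1)) ∧ x (t + 1) ∈ N (x t) ∧ x t ∈ N (x (t + 1))}

open Pool.Agent.H.MP_e5a0e3_pr

theorem law_eq (d : ℕ) : law d d = Measure.infinitePi (nu d) := by
  unfold law nu
  congr 1; funext x; congr 1; ext s
  simp only [Set.mem_ofPred_eq, Finset.mem_coe, Finset.mem_powersetCard, Finset.subset_iff,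
    mem_nbr, Adj, and_comm]

theorem sub (d : ℕ) : {N | ∃ γ, ∀ t, rq γ t ⊆ N (pos γ t)} ⊆ Perc d := by
  rintro N ⟨γ, hγ⟩
  have h1 : ∀ t, pos γ (t + 1) = pos γ t + Pi.single (γ t) 1 := fun t => Finset.sum_range_succ _ _
  refine ⟨pos γ, by simp [pos], fun _ _ => pos_inj, fun t =>
    ⟨mem_nbr.1 ((rq_ok γ t).1 ?_), hγ t ?_, hγ (t + 1) ?_⟩⟩
  · simp [rq, h1]
  · simp [rq, h1]
  · simp [rq, h1, Pi.single_neg]

theorem result : ∃ d k : ℕ, 1 ≤ d ∧ 1 ≤ k ∧ k ≤ d ∧ 0 < law d k (Perc d) := by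
  refine ⟨2 ^ 6, 2 ^ 6, by norm_num, by norm_num, le_rfl, ?_⟩
  rw [law_eq]
  exact main.trans_le (measure_mono (sub _))

end Pool.Agent.Results.MP_e5a0e3_pr.No
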